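import Pool.Agent.H34.Q1.Main

/-!
# Free PI rings whose torsion is controlled are images of torsion-free free PI rings

Let `A` be a free PI ring (of any characteristic). Suppose that there are a positive integer `n` and finitely many types
`o_1, ..., o_k`, each of them `Capelli sums of order N_i + 1` or `triple commutators`, such that
`n t g_1 ⋯ g_k = 0` for every torsion element `t` of `A` and all values `g_i` of type `o_i`. Then `A` is an image of a free PI
ring without additive torsion.

Special cases: `k = 0`: the torsion elements of `A` are killed by one positive integer, for example `A` has prime
characteristic, or `A` has positive characteristic. `k = 1`: some positive multiple of a Capelli sum vanishes on `A`,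
for example `A` satisfies a Capelli identity.
-/

set_option autoImplicit false

universe u

open TF

namespace Pool.Agent.Results.MP_d53c66_al.TorsionCondition

theorem result (A : Type u) [NonUnitalRing A] (hA : IsFreePIRing A) (h : TorCond A) :
    ∃ (B : Type u) (_ : NonUnitalRing B), IsFreePIRing B ∧
      (∀ (n : ℕ) (b : B), n ≠ 0 → n • b = 0 → b = 0) ∧
      ∃ φ : B →ₙ+* A, Function.Surjective φ :=
  q1_main A hA h

end Pool.Agent.Results.MP_d53c66_al.TorsionCondition
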