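import Pool.Agent.H66.TF.FinalDefs
import Pool.Agent.H66.TF.RingForm
import Pool.Agent.H66.TF.Internal

/-!
# MP_d53c66_al, Q2: every free PI ring of prime characteristic is an image of a torsion-free free PI ring

The definitions (`TF.FreeRng`, `TF.Satisfies`, `TF.IsPIRing`, `TF.InVariety`, `TF.TVariety`,
`TF.IsFreeOf`, `TF.IsFreePIRing`) are in `Pool/Agent/H66/TF/FinalDefs.lean`.

Outline of the proof. Let `T` be the T-ideal of `A`. By a theorem of Kemer (proved in
`Pool/Agent/H34/Kem`), `T` contains the T-ideal `I_M` generated by the Capelli polynomials of some rank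
`M` (with arbitrary fillers). The key step is the inclusion `T(M_m(ℤ)) · F₊ · I_m · I_m ⊆ I_{m+1}` in
the free ring over `ℤ`, `m ≥ 1` (`Pool/Agent/H66/TF/Key.lean`, `KeyIM.lean`); its proof uses the
characteristic-free straightening of trace functionals on `GL`-conjugation invariants (Littlewood-Richardson
pairs of matrices). By induction on `M` the T-ideal `I_M` contains a product of T-ideals
`T(M_j(ℤ))` and `F₊`, and such products are pure (the free ring modulo them is torsion-free).
-/

universe u

namespace Pool.Agent.Results.MP_d53c66_al.TorsionFreeCover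

/-- Every free PI ring `A` of prime characteristic `p` is the image, under a surjective ring
homomorphism, of a free PI ring `B` whose additive group is torsion-free. -/
theorem result (p : ℕ) (hp : p.Prime) (A : Type u) [NonUnitalRing A] (hA : TF.IsFreePIRing A)
    (hpA : ∀ a : A, p • a = 0) :
    ∃ (B : Type u) (_ : NonUnitalRing B), TF.IsFreePIRing B ∧
      (∀ (n : ℕ) (b : B), n ≠ 0 → n • b = 0 → b = 0) ∧
      ∃ φ : B →ₙ+* A, Function.Surjective φ :=
  TF.ring_form TF.internal p hp A hA hpA

end Pool.Agent.Results.MP_d53c66_al.TorsionFreeCover
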